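import Mathlib

namespace Pool.Agent.Work.MP_d88d93_co.Four

open Finset

abbrev P := EuclideanSpace ℝ (Fin 2)

/-- number of connecting lines of `S` through `p` -/
noncomputable def nl (S : Finset P) (p : P) : ℕ :=
  Set.ncard {ℓ : AffineSubspace ℝ P | p ∈ ℓ ∧ ∃ a ∈ S, ∃ b ∈ S, a ≠ b ∧ ℓ = affineSpan ℝ {a, b}}

open Classical in
theorem key_le {S T : Finset P} {p : P} (hp : p ∈ S) (hT : ∀ q ∈ T, q ∈ S ∧ q ≠ p)
    (κ : P → Option ℝ)
    (hκ : ∀ q ∈ T, ∀ r ∈ T, r ∈ affineSpan ℝ ({p, q} : Set P) → κ q = κ r) :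
    (T.image κ).card ≤ nl S p := by
  have hfin : {ℓ : AffineSubspace ℝ P |
      p ∈ ℓ ∧ ∃ a ∈ S, ∃ b ∈ S, a ≠ b ∧ ℓ = affineSpan ℝ {a, b}}.Finite := by
    refine ((S ×ˢ S).image fun z : P × P => affineSpan ℝ ({z.1, z.2} : Set P)).finite_toSet.subset ?_
    rintro ℓ ⟨-, a, ha, b, hb, -, rfl⟩
    exact mem_coe.2 (mem_image.2 ⟨(a, b), mem_product.2 ⟨ha, hb⟩, rfl⟩)
  have h1 : (T.image fun q => affineSpan ℝ ({p, q} : Set P)).card ≤ nl S p := by
    rw [← Set.ncard_coe_finset]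
    refine Set.ncard_le_ncard ?_ hfin
    intro ℓ hℓ
    obtain ⟨q, hq, rfl⟩ := mem_image.1 (mem_coe.1 hℓ)
    exact ⟨left_mem_affineSpan_pair _ _ _, p, hp, q, (hT q hq).1, (hT q hq).2.symm, rfl⟩
  refine le_trans ?_ h1
  refine card_le_card_of_surjOn
    (fun ℓ => if h : ∃ q ∈ T, affineSpan ℝ ({p, q} : Set P) = ℓ then κ h.choose else none) ?_
  intro t ht
  obtain ⟨r, hr, rfl⟩ := mem_image.1 (mem_coe.1 ht)
  have h : ∃ q ∈ T, affineSpan ℝ ({p, q} : Set P) = affineSpan ℝ ({p, r} : Set P) := ⟨r, hr, rfl⟩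
  refine ⟨_, mem_coe.2 (mem_image.2 ⟨r, hr, rfl⟩), ?_⟩
  simp only [dif_pos h]
  refine hκ _ h.choose_spec.1 r hr ?_
  rw [h.choose_spec.2]
  exact right_mem_affineSpan_pair _ _ _

open Classical in
theorem three_le {T F G H : Finset P} (κ : P → ℝ) {lo hi : ℝ} (hlh : lo ≤ hi)
    (hF : F ⊆ T) (hG : G ⊆ T) (hH : H ⊆ T) (iF : Set.InjOn κ F) (iG : Set.InjOn κ G)
    (iH : Set.InjOn κ H) (bF : ∀ q ∈ F, lo ≤ κ q ∧ κ q ≤ hi) (bG : ∀ q ∈ G, hi < κ q)
    (bH : ∀ q ∈ H, κ q < lo) : F.card + G.card + H.card ≤ (T.image κ).card := by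
  rw [← card_image_of_injOn iF, ← card_image_of_injOn iG, ← card_image_of_injOn iH,
    ← card_union_of_disjoint, ← card_union_of_disjoint]
  · refine card_le_card (union_subset (union_subset ?_ ?_) ?_) <;>
      exact image_subset_image ‹_›
  · rw [disjoint_left]
    intro t ht ht'
    obtain ⟨r, hr, rfl⟩ := mem_image.1 ht'
    have := bH r hr
    rcases mem_union.1 ht with h | h <;> obtain ⟨q, hq, e⟩ := mem_image.1 h
    · have := (bF q hq).1
      linarith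
    · have := bG q hq
      linarith
  · rw [disjoint_left]
    intro t ht ht'
    obtain ⟨r, hr, rfl⟩ := mem_image.1 ht'
    obtain ⟨q, hq, e⟩ := mem_image.1 ht
    have := bG r hr
    have := (bF q hq).2
    linarith

open Classical in
theorem split_le (A : Finset P) (t : P → ℝ) (h : Set.InjOn t A) (c : ℝ) :
    A.card ≤ (A.filter fun q => c < t q).card + (A.filter fun q => t q < c).card + 1 := by
  have h1 : (A.filter fun q => t q = c).card ≤ 1 := card_le_one.2 fun a ha b hb =>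
    h (mem_filter.1 ha).1 (mem_filter.1 hb).1 ((mem_filter.1 ha).2.trans (mem_filter.1 hb).2.symm)
  have h2 : A ⊆ (A.filter fun q => c < t q) ∪ (A.filter fun q => t q < c) ∪
      (A.filter fun q => t q = c) := fun q hq => by
    simp only [mem_union, mem_filter, hq, true_and]
    rcases lt_trichotomy c (t q) with h | h | h
    · exact Or.inl (Or.inl h)
    · exact Or.inr h.symm
    · exact Or.inl (Or.inr h)
  have h3 := (card_le_card h2).trans ((card_union_le _ _).trans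
    (Nat.add_le_add_right (card_union_le _ _) _))
  omega

/-- homogeneous coordinates of the plane -/
structure Hom (X Y Z : P → ℝ) : Prop where
  inj : ∀ p q c, X p = c * X q → Y p = c * Y q → Z p = c * Z q → p = q
  ne : ∀ p, X p = 0 → Y p = 0 → Z p ≠ 0
  lin : ∀ p q r, r ∈ affineSpan ℝ ({p, q} : Set P) →
    ∃ a b, X r = a * X p + b * X q ∧ Y r = a * Y p + b * Y q ∧ Z r = a * Z p + b * Z q

variable {X Y Z : P → ℝ}

theorem Hom.swap (h : Hom X Y Z) : Hom Y X Z :=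
  ⟨fun p q c a b d => h.inj p q c b a d, fun p a b => h.ne p b a, fun p q r hr => by
    obtain ⟨a, b, h1, h2, h3⟩ := h.lin p q r hr
    exact ⟨a, b, h2, h1, h3⟩⟩

theorem Hom.base (h : Hom X Y Z) {a b c d : ℝ} (hd : a * d - b * c ≠ 0) :
    Hom (fun p => a * X p + b * Y p) (fun p => c * X p + d * Y p) Z := by
  have k : ∀ x y : ℝ, a * x + b * y = 0 → c * x + d * y = 0 → x = 0 ∧ y = 0 := fun x y h1 h2 =>
    ⟨(mul_eq_zero.1 (by linear_combination d * h1 - b * h2 : (a * d - b * c) * x = 0)).resolve_left hd,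
      (mul_eq_zero.1 (by linear_combination a * h2 - c * h1 : (a * d - b * c) * y = 0)).resolve_left hd⟩
  refine ⟨fun p q e h1 h2 h3 => ?_, fun p h1 h2 => h.ne p (k _ _ h1 h2).1 (k _ _ h1 h2).2,
    fun p q r hr => ?_⟩
  · obtain ⟨h4, h5⟩ := k (X p - e * X q) (Y p - e * Y q) (by linear_combination h1)
      (by linear_combination h2)
    exact h.inj p q e (by linarith) (by linarith) h3
  · obtain ⟨u, v, h1, h2, h3⟩ := h.lin p q r hr
    exact ⟨u, v, by rw [h1, h2]; ring, by rw [h1, h2]; ring, h3⟩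

theorem Hom.injOn (h : Hom X Y Z) {A : Finset P} {m : ℝ}
    (hA : ∀ q ∈ A, Y q ≠ 0 ∧ X q = m * Y q) : Set.InjOn (fun q => Z q / Y q) A := by
  intro p hp q hq e
  obtain ⟨p1, p2⟩ := hA p hp
  obtain ⟨q1, q2⟩ := hA q hq
  refine h.inj p q (Y p / Y q) ?_ ?_ ?_
  · rw [p2, q2]; field_simp
  · field_simp
  · have e' : Z p / Y p = Z q / Y q := e
    field_simp at e' ⊢
    linarith

open Classical in
/-- the lines through a point `p` of the axis `Y = 0` -/
theorem Hom.side (h : Hom X Y Z) {S F G H E : Finset P} {p : P} (hp : p ∈ S) (hY : Y p = 0)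
    (hX : X p ≠ 0) {g k lo hi : ℝ} (hlh : lo ≤ hi) (sF : F ⊆ S) (sG : G ⊆ S) (sH : H ⊆ S)
    (hF : ∀ q ∈ F, Y q ≠ 0 ∧ X q = 0 * Y q) (hG : ∀ q ∈ G, Y q ≠ 0 ∧ X q = g * Y q)
    (hH : ∀ q ∈ H, Y q ≠ 0 ∧ X q = k * Y q)
    (bF : ∀ q ∈ F, lo ≤ Z q / Y q ∧ Z q / Y q ≤ hi)
    (bG : ∀ q ∈ G, hi < Z q / Y q - g * (Z p / X p))
    (bH : ∀ q ∈ H, Z q / Y q - k * (Z p / X p) < lo)
    (hE : ∀ q ∈ E, q ∈ S ∧ q ≠ p ∧ Y q = 0) (cE : E.card ≤ 1) :
    F.card + G.card + H.card + E.card ≤ nl S p := by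
  let κ : P → ℝ := fun q => Z q / Y q - X q / Y q * (Z p / X p)
  have e : ∀ {A : Finset P} {m : ℝ}, (∀ q ∈ A, Y q ≠ 0 ∧ X q = m * Y q) → ∀ q ∈ A,
      κ q = Z q / Y q - m * (Z p / X p) := fun hA q hq => by
    simp only [κ]
    rw [(hA q hq).2, mul_div_cancel_right₀ _ (hA q hq).1]
  have i : ∀ {A : Finset P} {m : ℝ}, (∀ q ∈ A, Y q ≠ 0 ∧ X q = m * Y q) → Set.InjOn κ A :=
    fun hA a ha b hb hab => h.injOn hA ha hb (by
      rw [e hA a ha, e hA b hb] at hab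
      exact sub_left_injective hab)
  have s : ∀ {A : Finset P} {m : ℝ}, A ⊆ S → (∀ q ∈ A, Y q ≠ 0 ∧ X q = m * Y q) →
      A ⊆ S.filter fun q => Y q ≠ 0 := fun sA hA q hq => mem_filter.2 ⟨sA hq, (hA q hq).1⟩
  have k1 := three_le κ hlh (s sF hF) (s sG hG) (s sH hH) (i hF) (i hG) (i hH)
    (fun q hq => by rw [e hF q hq, zero_mul, sub_zero]; exact bF q hq)
    (fun q hq => by rw [e hG q hq]; exact bG q hq) (fun q hq => by rw [e hH q hq]; exact bH q hq)
  let κ' : P → Option ℝ := fun q => if Y q = 0 then none else some (κ q)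
  have k2 := key_le (T := (S.filter fun q => Y q ≠ 0) ∪ E) hp (fun q hq => by
    rcases mem_union.1 hq with hq | hq
    · refine ⟨(mem_filter.1 hq).1, ?_⟩
      rintro rfl
      exact (mem_filter.1 hq).2 hY
    · exact ⟨(hE q hq).1, (hE q hq).2.1⟩) κ' fun q _ r hr hl => by
    obtain ⟨a, b, h1, h2, h3⟩ := h.lin p q r hl
    rw [hY, mul_zero, zero_add] at h2
    by_cases q1 : Y q = 0
    · simp only [κ', q1, h2, mul_zero, if_true]
    have hb : b ≠ 0 := by
      rintro rfl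
      rw [zero_mul] at h2
      rcases mem_union.1 hr with hr | hr
      · exact (mem_filter.1 hr).2 h2
      · exact (hE r hr).2.1 (h.inj r p a (by rw [h1]; ring) (by rw [h2, hY]; ring)
          (by rw [h3]; ring))
    have r1 : Y r ≠ 0 := by
      rw [h2]
      exact mul_ne_zero hb q1
    simp only [κ', if_neg q1, if_neg r1, κ, Option.some.injEq]
    rw [h1, h2, h3]
    field_simp
    ring
  have k3 : ((S.filter fun q => Y q ≠ 0).image κ).card + E.card ≤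
      (((S.filter fun q => Y q ≠ 0) ∪ E).image κ').card := by
    have e1 : (S.filter fun q => Y q ≠ 0).image κ' =
        ((S.filter fun q => Y q ≠ 0).image κ).image some := by
      rw [image_image]
      exact image_congr fun q hq => by
        simp only [κ', if_neg (mem_filter.1 (mem_coe.1 hq)).2, Function.comp]
    have e2 : (E.image κ').card = E.card :=
      card_image_of_injOn fun a ha b hb _ => card_le_one.1 cE a ha b hb
    rw [image_union, card_union_of_disjoint, e1, card_image_of_injective _ (Option.some_injective _),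
      e2]
    rw [e1, disjoint_left]
    intro t ht ht'
    obtain ⟨a, -, rfl⟩ := mem_image.1 ht
    obtain ⟨b, hb, e3⟩ := mem_image.1 ht'
    simp only [κ', (hE b hb).2.2, if_true] at e3
    exact Option.some_ne_none _ e3.symm
  omega

open Classical in
theorem Hom.core (h : Hom X Y Z) (S : Finset P) {μ ν : ℝ} (hμ : 0 < μ) (hν : 0 < ν)
    (hc : ∀ q ∈ S, Y q = 0 ∨ X q = 0 ∨ X q = -μ * Y q ∨ X q = ν * Y q)
    (hB : ∃ p ∈ S, Y p = 0 ∧ X p ≠ 0)
    (hD : ∃ p ∈ S, X p = 0 ∧ Y p ≠ 0 ∧ ∃ q ∈ S, X q = 0 ∧ q ≠ p) :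
    ∃ p ∈ S, S.card ≤ 2 * nl S p + 1 := by
  set B := S.filter fun q => X q ≠ 0 ∧ Y q = 0 * X q with eB
  set D := S.filter fun q => Y q ≠ 0 ∧ X q = 0 * Y q with eD
  set A := S.filter fun q => Y q ≠ 0 ∧ X q = -μ * Y q with eA
  set C := S.filter fun q => Y q ≠ 0 ∧ X q = ν * Y q with eC
  set O := S.filter fun q => X q = 0 ∧ Y q = 0 with eO
  have hO : O.card ≤ 1 := card_le_one.2 fun a ha b hb => by
    obtain ⟨a1, a2⟩ := (mem_filter.1 ha).2
    obtain ⟨b1, b2⟩ := (mem_filter.1 hb).2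
    refine h.inj a b (Z a / Z b) (by rw [a1, b1, mul_zero]) (by rw [a2, b2, mul_zero]) ?_
    rw [div_mul_cancel₀ _ (h.ne b b1 b2)]
  have hS : S.card ≤ O.card + B.card + D.card + A.card + C.card := by
    have : S ⊆ O ∪ B ∪ D ∪ A ∪ C := fun q hq => by
      simp only [eO, eB, eD, eA, eC, mem_union, mem_filter, hq, true_and, zero_mul]
      have := hc q hq
      by_cases h1 : X q = 0 <;> by_cases h2 : Y q = 0 <;> tauto
    have h1 := card_le_card this
    have h2 := card_union_le (O ∪ B ∪ D ∪ A) C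
    have h3 := card_union_le (O ∪ B ∪ D) A
    have h4 := card_union_le (O ∪ B) D
    have h5 := card_union_le O B
    omega
  have nB : B.Nonempty := by
    obtain ⟨p, hp, h1, h2⟩ := hB
    exact ⟨p, mem_filter.2 ⟨hp, h2, by rw [h1, zero_mul]⟩⟩
  have hE : ∀ y, ∃ z, ∀ q ∈ ({z} : Finset P), q ∈ S ∧ q ≠ y ∧ X q = 0 := fun y => by
    obtain ⟨p, hp, h1, -, q, hq, h2, h3⟩ := hD
    by_cases e : p = y
    · exact ⟨q, fun r hr => by rw [mem_singleton.1 hr]; exact ⟨hq, e ▸ h3, h2⟩⟩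
    · exact ⟨p, fun r hr => by rw [mem_singleton.1 hr]; exact ⟨hp, e, h1⟩⟩
  have hO' : ∀ x ∈ B, ∀ q ∈ O, q ∈ S ∧ q ≠ x ∧ Y q = 0 := fun x hx q hq =>
    ⟨(mem_filter.1 hq).1, fun e => (mem_filter.1 hx).2.1 (e ▸ (mem_filter.1 hq).2.1),
      (mem_filter.1 hq).2.2⟩
  have nD : D.Nonempty := by
    obtain ⟨p, hp, h1, h2, -⟩ := hD
    exact ⟨p, mem_filter.2 ⟨hp, h2, by rw [h1, zero_mul]⟩⟩
  obtain ⟨x1, hx1, mx1⟩ := B.exists_max_image (fun q => Z q / X q) nB
  obtain ⟨x0, hx0, mx0⟩ := B.exists_min_image (fun q => Z q / X q) nB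
  obtain ⟨y1, hy1, my1⟩ := D.exists_max_image (fun q => Z q / Y q) nD
  obtain ⟨y0, hy0, my0⟩ := D.exists_min_image (fun q => Z q / Y q) nD
  have pB : ∀ q ∈ B, X q ≠ 0 ∧ Y q = 0 * X q := fun q hq => (mem_filter.1 hq).2
  have pD : ∀ q ∈ D, Y q ≠ 0 ∧ X q = 0 * Y q := fun q hq => (mem_filter.1 hq).2
  have pA : ∀ q ∈ A, Y q ≠ 0 ∧ X q = -μ * Y q := fun q hq => (mem_filter.1 hq).2
  have pC : ∀ q ∈ C, Y q ≠ 0 ∧ X q = ν * Y q := fun q hq => (mem_filter.1 hq).2
  have pA' : ∀ q ∈ A, X q ≠ 0 ∧ Y q = -μ⁻¹ * X q := fun q hq => by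
    obtain ⟨h1, h2⟩ := pA q hq
    rw [h2]
    exact ⟨mul_ne_zero (neg_ne_zero.2 hμ.ne') h1, by field_simp⟩
  have pC' : ∀ q ∈ C, X q ≠ 0 ∧ Y q = ν⁻¹ * X q := fun q hq => by
    obtain ⟨h1, h2⟩ := pC q hq
    rw [h2]
    exact ⟨mul_ne_zero hν.ne' h1, by field_simp⟩
  have tA : ∀ q ∈ A, ∀ y : ℝ, Z q / X q - -μ⁻¹ * y = (y - Z q / Y q) / μ := fun q hq y => by
    obtain ⟨h1, h2⟩ := pA q hq
    rw [h2]; field_simp; ring
  have tC : ∀ q ∈ C, ∀ y : ℝ, Z q / X q - ν⁻¹ * y = (Z q / Y q - y) / ν := fun q hq y => by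
    obtain ⟨h1, h2⟩ := pC q hq
    rw [h2]; field_simp
  have sB : B ⊆ S := filter_subset _ _
  have sD : D ⊆ S := filter_subset _ _
  have sA : ∀ f : P → Prop, A.filter f ⊆ S := fun f => (filter_subset _ _).trans (filter_subset _ _)
  have sC : ∀ f : P → Prop, C.filter f ⊆ S := fun f => (filter_subset _ _).trans (filter_subset _ _)
  set a1 := Z x1 / X x1
  set a0 := Z x0 / X x0
  set b1 := Z y1 / Y y1
  set b0 := Z y0 / Y y0
  have k1 := h.side (sB hx1) (by rw [(pB _ hx1).2, zero_mul]) (pB _ hx1).1 (my1 _ hy0) sD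
    (sA fun q => b1 - μ * a1 < Z q / Y q) (sC fun q => Z q / Y q < b0 + ν * a1) pD
    (fun q hq => pA q (mem_filter.1 hq).1) (fun q hq => pC q (mem_filter.1 hq).1)
    (fun q hq => ⟨my0 q hq, my1 q hq⟩)
    (fun q hq => by have := (mem_filter.1 hq).2; linarith)
    (fun q hq => by have := (mem_filter.1 hq).2; linarith) (hO' _ hx1) hO
  have k2 := h.side (sB hx0) (by rw [(pB _ hx0).2, zero_mul]) (pB _ hx0).1 (my1 _ hy0) sD
    (sC fun q => b1 + ν * a0 < Z q / Y q) (sA fun q => Z q / Y q < b0 - μ * a0) pD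
    (fun q hq => pC q (mem_filter.1 hq).1) (fun q hq => pA q (mem_filter.1 hq).1)
    (fun q hq => ⟨my0 q hq, my1 q hq⟩)
    (fun q hq => by have := (mem_filter.1 hq).2; linarith)
    (fun q hq => by have := (mem_filter.1 hq).2; linarith) (hO' _ hx0) hO
  obtain ⟨z1, hz1⟩ := hE y1
  obtain ⟨z0, hz0⟩ := hE y0
  have k3 := h.swap.side (sD hy1) (by rw [(pD _ hy1).2, zero_mul]) (pD _ hy1).1 (mx1 _ hx0) sB
    (sA fun q => Z q / Y q < b1 - μ * a1) (sC fun q => Z q / Y q < b1 + ν * a0) pB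
    (fun q hq => pA' q (mem_filter.1 hq).1) (fun q hq => pC' q (mem_filter.1 hq).1)
    (fun q hq => ⟨mx0 q hq, mx1 q hq⟩)
    (fun q hq => by
      have := (mem_filter.1 hq).2
      rw [tA q (mem_filter.1 hq).1, lt_div_iff₀ hμ]; linarith)
    (fun q hq => by
      have := (mem_filter.1 hq).2
      rw [tC q (mem_filter.1 hq).1, div_lt_iff₀ hν]; linarith) hz1 (card_singleton _).le
  have k4 := h.swap.side (sD hy0) (by rw [(pD _ hy0).2, zero_mul]) (pD _ hy0).1 (mx1 _ hx0) sB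
    (sC fun q => b0 + ν * a1 < Z q / Y q) (sA fun q => b0 - μ * a0 < Z q / Y q) pB
    (fun q hq => pC' q (mem_filter.1 hq).1) (fun q hq => pA' q (mem_filter.1 hq).1)
    (fun q hq => ⟨mx0 q hq, mx1 q hq⟩)
    (fun q hq => by
      have := (mem_filter.1 hq).2
      rw [tC q (mem_filter.1 hq).1, lt_div_iff₀ hν]; linarith)
    (fun q hq => by
      have := (mem_filter.1 hq).2
      rw [tA q (mem_filter.1 hq).1, div_lt_iff₀ hμ]; linarith) hz0 (card_singleton _).le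
  rw [card_singleton] at k3 k4
  have u1 := split_le A _ (h.injOn pA) (b1 - μ * a1)
  have u2 := split_le A _ (h.injOn pA) (b0 - μ * a0)
  have u3 := split_le C _ (h.injOn pC) (b0 + ν * a1)
  have u4 := split_le C _ (h.injOn pC) (b1 + ν * a0)
  by_contra hn
  push Not at hn
  have v1 := hn _ (sB hx1)
  have v2 := hn _ (sB hx0)
  have v3 := hn _ (sD hy1)
  have v4 := hn _ (sD hy0)
  omega

end Pool.Agent.Work.MP_d88d93_co.Four
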