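import Pool.Agent.Work.MP_d88d93_co.Four.Core

namespace Pool.Agent.Work.MP_d88d93_co.Four

open Finset

variable {X Y Z : P → ℝ}

theorem Hom.core2 (h : Hom X Y Z) (S : Finset P) {l m : ℝ} (hl : l * m < 0)
    (hc : ∀ q ∈ S, Y q = 0 ∨ X q = 0 ∨ X q = l * Y q ∨ X q = m * Y q)
    (hB : ∃ p ∈ S, Y p = 0 ∧ X p ≠ 0)
    (hD : ∃ p ∈ S, X p = 0 ∧ Y p ≠ 0 ∧ ∃ q ∈ S, X q = 0 ∧ q ≠ p) :
    ∃ p ∈ S, S.card ≤ 2 * nl S p + 1 := by
  rcases mul_neg_iff.1 hl with ⟨h1, h2⟩ | ⟨h1, h2⟩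
  · refine h.core S (neg_pos.2 h2) h1 (fun q hq => ?_) hB hD
    rw [neg_neg]
    have := hc q hq
    tauto
  · refine h.core S (neg_pos.2 h1) h2 (fun q hq => ?_) hB hD
    rw [neg_neg]
    exact hc q hq

theorem Hom.core3 (h : Hom X Y Z) (S : Finset P) {l m : ℝ} (hm : m ≠ 0) (hl : 0 < l * (m - l))
    (hc : ∀ q ∈ S, Y q = 0 ∨ X q = 0 ∨ X q = l * Y q ∨ X q = m * Y q)
    (hB : ∃ p ∈ S, Y p ≠ 0 ∧ X p = m * Y p)
    (hD : ∃ p ∈ S, X p = 0 ∧ Y p ≠ 0 ∧ ∃ q ∈ S, X q = 0 ∧ q ≠ p) :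
    ∃ p ∈ S, S.card ≤ 2 * nl S p + 1 := by
  have hml : m - l ≠ 0 := by
    intro e
    rw [e, mul_zero] at hl
    exact lt_irrefl _ hl
  refine (h.base (a := 1) (b := 0) (c := -1) (d := m) (by simpa using hm)).core2 S
    (l := -1) (m := l / (m - l)) ?_ (fun q hq => ?_) ?_ ?_
  · have : 0 < l / (m - l) := div_pos_iff.2 (mul_pos_iff.1 hl)
    linarith
  · rcases hc q hq with e | e | e | e
    · exact Or.inr (Or.inr (Or.inl (by rw [e]; ring)))
    · exact Or.inr (Or.inl (by rw [e]; ring))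
    · exact Or.inr (Or.inr (Or.inr (by rw [e]; field_simp; ring)))
    · exact Or.inl (by rw [e]; ring)
  · obtain ⟨p, hp, h1, h2⟩ := hB
    exact ⟨p, hp, by rw [h2]; ring, by rw [h2]; simpa using ⟨hm, h1⟩⟩
  · obtain ⟨p, hp, h1, h2, q, hq, h3, h4⟩ := hD
    exact ⟨p, hp, by rw [h1]; ring, by rw [h1]; simpa using ⟨hm, h2⟩, q, hq, by rw [h3]; ring, h4⟩

theorem Hom.mid (h : Hom X Y Z) (S : Finset P) (ix : P → Fin 4)
    (hi : ∀ p ∈ S, ∀ q ∈ S, ix p = ix q → X p * Y q - X q * Y p = 0)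
    (hB : ∃ p ∈ S, Y p = 0 ∧ X p ≠ 0)
    (hD : ∃ p ∈ S, X p = 0 ∧ Y p ≠ 0 ∧ ∃ q ∈ S, X q = 0 ∧ q ≠ p) :
    ∃ p ∈ S, S.card ≤ 2 * nl S p + 1 := by
  by_cases c1 : ∀ q ∈ S, Y q = 0 ∨ X q = 0
  · refine h.core2 S (l := 1) (m := -1) (by norm_num) (fun q hq => ?_) hB hD
    have := c1 q hq
    tauto
  push Not at c1
  obtain ⟨r, hr, rY, rX⟩ := c1
  obtain ⟨l, el⟩ : ∃ l, X r = l * Y r := ⟨X r / Y r, by field_simp⟩
  have l0 : l ≠ 0 := fun e => rX (by rw [el, e, zero_mul])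
  by_cases c2 : ∀ q ∈ S, Y q = 0 ∨ X q = 0 ∨ X q = l * Y q
  · refine h.core2 S (l := l) (m := -l) (by nlinarith [mul_self_pos.2 l0]) (fun q hq => ?_) hB hD
    have := c2 q hq
    tauto
  push Not at c2
  obtain ⟨s, hs, sY, sX, sl⟩ := c2
  obtain ⟨m, em⟩ : ∃ m, X s = m * Y s := ⟨X s / Y s, by field_simp⟩
  have m0 : m ≠ 0 := fun e => sX (by rw [em, e, zero_mul])
  have lm : l ≠ m := fun e => sl (by rw [em, e])
  have hc : ∀ q ∈ S, Y q = 0 ∨ X q = 0 ∨ X q = l * Y q ∨ X q = m * Y q := fun q hq => by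
    by_contra hn
    push Not at hn
    obtain ⟨qY, qX, ql, qm⟩ := hn
    obtain ⟨u, hu, uY, uX⟩ := hB
    obtain ⟨p, hp, pX, pY, -⟩ := hD
    have a : ∀ t ∈ S, Y t ≠ 0 → ix u ≠ ix t := fun t ht tY e => by
      have := hi u hu t ht e
      rw [uY, mul_zero, sub_zero] at this
      exact mul_ne_zero uX tY this
    have b : ∀ t ∈ S, ∀ k, Y t ≠ 0 → X t = k * Y t → ∀ w ∈ S, X w ≠ k * Y w → ix t ≠ ix w :=
      fun t ht k tY ek w hw hk e => by
        have := hi t ht w hw e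
        rw [ek] at this
        exact hk (mul_left_cancel₀ tY (by linarith))
    have p0 : X p = 0 * Y p := by rw [pX, zero_mul]
    have five : ∀ i j k l m : Fin 4, i ≠ j → i ≠ k → i ≠ l → i ≠ m → j ≠ k → j ≠ l → j ≠ m →
        k ≠ l → k ≠ m → l ≠ m → False := by
      intro i j k l m
      omega
    exact five _ _ _ _ _ (a p hp pY) (a r hr rY) (a s hs sY) (a q hq qY)
      (b p hp 0 pY p0 r hr (by rwa [zero_mul])) (b p hp 0 pY p0 s hs (by rwa [zero_mul]))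
      (b p hp 0 pY p0 q hq (by rwa [zero_mul])) (b r hr l rY el s hs sl) (b r hr l rY el q hq ql)
      (b s hs m sY em q hq qm)
  rcases lt_or_gt_of_ne (mul_ne_zero l0 m0) with c3 | c3
  · exact h.core2 S c3 hc hB hD
  by_cases c4 : 0 < l * (m - l)
  · exact h.core3 S m0 c4 hc ⟨s, hs, sY, em⟩ hD
  · refine h.core3 S (l := m) (m := l) l0 ?_ (fun q hq => ?_) ⟨r, hr, rY, el⟩ hD
    · by_contra c5
      have h1 : l * m ≤ l * l := by nlinarith
      have h2 : l * m ≤ m * m := by nlinarith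
      have h3 : 0 < (l - m) * (l - m) := mul_self_pos.2 (sub_ne_zero.2 lm)
      have h4 : (l * m) * ((l - m) * (l - m)) = -((l * l - l * m) * (m * m - l * m)) := by ring
      nlinarith [mul_pos c3 h3, mul_nonneg (sub_nonneg.2 h1) (sub_nonneg.2 h2)]
    · have := hc q hq
      tauto

theorem Hom.top (h : Hom X Y Z) (S : Finset P) (h5 : 5 ≤ S.card) (a b : Fin 4 → ℝ)
    (hc : ∀ p ∈ S, ∃ i s, X p = s * a i ∧ Y p = s * b i)
    (hd : ∀ p ∈ S, ¬ (X p = 0 ∧ Y p = 0) → ∃ q ∈ S, X p * Y q - X q * Y p ≠ 0) :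
    ∃ p ∈ S, S.card ≤ 2 * nl S p + 1 := by
  classical
  choose! ix s hX hY using hc
  have hi : ∀ p ∈ S, ∀ q ∈ S, ix p = ix q → X p * Y q - X q * Y p = 0 := fun p hp q hq e => by
    rw [hX p hp, hY p hp, hX q hq, hY q hq, e]
    ring
  obtain ⟨p, hp, q, hq, hne, e, h0⟩ : ∃ p ∈ S, ∃ q ∈ S, p ≠ q ∧ ix p = ix q ∧
      ¬ (X p = 0 ∧ Y p = 0) := by
    obtain ⟨p, hp, q, hq, hne, e⟩ := exists_ne_map_eq_of_card_lt_of_maps_to (s := S)
      (t := (univ : Finset (Fin 4))) (by rw [card_univ, Fintype.card_fin]; omega) (f := ix) fun _ _ => mem_univ _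
    by_cases h1 : X p = 0 ∧ Y p = 0
    · refine ⟨q, hq, p, hp, hne.symm, e.symm, fun h2 => hne ?_⟩
      refine h.inj p q (Z p / Z q) (by rw [h1.1, h2.1, mul_zero]) (by rw [h1.2, h2.2, mul_zero]) ?_
      rw [div_mul_cancel₀ _ (h.ne q h2.1 h2.2)]
    · exact ⟨p, hp, q, hq, hne, e, h1⟩
  obtain ⟨u, hu, hdet⟩ := hd p hp h0
  refine (h.base (a := -Y p) (b := X p) (c := -Y u) (d := X u)
    (fun e => hdet (by linear_combination e))).mid S ix (fun r hr t ht e => ?_)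
    ⟨u, hu, by ring, fun e => hdet (by linear_combination e)⟩
    ⟨p, hp, by ring, fun e => hdet (by linear_combination -e), q, hq,
      by linear_combination hi p hp q hq e, hne.symm⟩
  linear_combination (X p * Y u - X u * Y p) * hi r hr t ht e

theorem lin_coord {p q r : P} (hr : r ∈ affineSpan ℝ ({p, q} : Set P)) :
    ∃ c : ℝ, r 0 = (1 - c) * p 0 + c * q 0 ∧ r 1 = (1 - c) * p 1 + c * q 1 := by
  obtain ⟨c, rfl⟩ := mem_affineSpan_pair_iff_exists_lineMap_eq.1 hr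
  refine ⟨c, ?_, ?_⟩ <;> simp [AffineMap.lineMap_apply] <;> ring

theorem ext2 {p q : P} (h0 : p 0 = q 0) (h1 : p 1 = q 1) : p = q := by
  ext i
  fin_cases i
  exacts [h0, h1]

theorem concurrent (S : Finset P) (h5 : 5 ≤ S.card) (hS : ¬ Collinear ℝ (S : Set P)) (O : P)
    (v : Fin 4 → P) (hc : ∀ p ∈ S, ∃ i, ∃ s : ℝ, p = O + s • v i) :
    ∃ p ∈ S, S.card ≤ 2 * nl S p + 1 := by
  have h : Hom (fun p => p 0 - O 0) (fun p => p 1 - O 1) fun _ => 1 :=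
    ⟨fun p q c h1 h2 h3 => by
      rw [mul_one] at h3
      rw [← h3] at h1 h2
      exact ext2 (by linarith) (by linarith), fun _ _ _ => one_ne_zero, fun p q r hr => by
      obtain ⟨c, h1, h2⟩ := lin_coord hr
      exact ⟨1 - c, c, by rw [h1]; ring, by rw [h2]; ring, by ring⟩⟩
  refine h.top S h5 (fun i => v i 0) (fun i => v i 1) (fun p hp => ?_) fun p _ h0 => ?_
  · obtain ⟨i, s, rfl⟩ := hc p hp
    exact ⟨i, s, by simp, by simp⟩
  · by_contra hn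
    push Not at hn
    refine hS ((collinear_iff_exists_forall_eq_smul_vadd _).2 ⟨O, p - O, fun q hq => ?_⟩)
    have e := hn q hq
    have hN : (p 0 - O 0) ^ 2 + (p 1 - O 1) ^ 2 ≠ 0 := fun e => h0
      ⟨by nlinarith [sq_nonneg (p 0 - O 0), sq_nonneg (p 1 - O 1)],
        by nlinarith [sq_nonneg (p 0 - O 0), sq_nonneg (p 1 - O 1)]⟩
    refine ⟨((q 0 - O 0) * (p 0 - O 0) + (q 1 - O 1) * (p 1 - O 1)) /
      ((p 0 - O 0) ^ 2 + (p 1 - O 1) ^ 2), ext2 ?_ ?_⟩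
    · simp only [vadd_eq_add, PiLp.add_apply, PiLp.smul_apply, PiLp.sub_apply, smul_eq_mul]
      field_simp
      linear_combination (-(p 1 - O 1)) * e
    · simp only [vadd_eq_add, PiLp.add_apply, PiLp.smul_apply, PiLp.sub_apply, smul_eq_mul]
      field_simp
      linear_combination (p 0 - O 0) * e

theorem parallel (S : Finset P) (h5 : 5 ≤ S.card) (hS : ¬ Collinear ℝ (S : Set P)) (w : P)
    (hw : w ≠ 0) (o : Fin 4 → P) (hc : ∀ p ∈ S, ∃ i, ∃ s : ℝ, p = o i + s • w) :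
    ∃ p ∈ S, S.card ≤ 2 * nl S p + 1 := by
  have hN : w 0 ^ 2 + w 1 ^ 2 ≠ 0 := fun e => hw (ext2
    (by simp only [PiLp.zero_apply]; nlinarith [sq_nonneg (w 0), sq_nonneg (w 1)])
    (by simp only [PiLp.zero_apply]; nlinarith [sq_nonneg (w 0), sq_nonneg (w 1)]))
  have h : Hom (fun _ => 1) (fun p => p 0 * w 1 - p 1 * w 0) fun p => p 0 * w 0 + p 1 * w 1 :=
    ⟨fun p q c h1 h2 h3 => by
      rw [mul_one] at h1
      rw [← h1] at h2 h3
      exact ext2 (mul_left_cancel₀ hN (by linear_combination w 1 * h2 + w 0 * h3))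
        (mul_left_cancel₀ hN (by linear_combination w 1 * h3 - w 0 * h2)),
      fun _ h _ => absurd h one_ne_zero, fun p q r hr => by
      obtain ⟨c, h1, h2⟩ := lin_coord hr
      exact ⟨1 - c, c, by ring, by rw [h1, h2]; ring, by rw [h1, h2]; ring⟩⟩
  refine h.top S h5 (fun _ => 1) (fun i => o i 0 * w 1 - o i 1 * w 0) (fun p hp => ?_)
    fun p _ _ => ?_
  · obtain ⟨i, s, rfl⟩ := hc p hp
    refine ⟨i, 1, by simp, ?_⟩
    simp only [PiLp.add_apply, PiLp.smul_apply, smul_eq_mul]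
    ring
  · by_contra hn
    push Not at hn
    refine hS ((collinear_iff_exists_forall_eq_smul_vadd _).2 ⟨p, w, fun q hq => ?_⟩)
    have e := hn q hq
    refine ⟨((q 0 - p 0) * w 0 + (q 1 - p 1) * w 1) / (w 0 ^ 2 + w 1 ^ 2), ext2 ?_ ?_⟩
    · simp only [vadd_eq_add, PiLp.add_apply, PiLp.smul_apply, smul_eq_mul]
      field_simp
      linear_combination (w 1) * e
    · simp only [vadd_eq_add, PiLp.add_apply, PiLp.smul_apply, smul_eq_mul]
      field_simp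
      linear_combination (-w 0) * e

end Pool.Agent.Work.MP_d88d93_co.Four
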